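import Mathlib
import Pool.Agent.helper58.DC.Defs

/-!
# Dade's conjecture modulo `p`, all primes: definitions for the statement

`Irr`, `omega`, `Extension`, `altSum`, `IsOp` are those of `helper58/DC/Defs.lean`. `B` is the block of the irreducible
character `χ` of `G`.
-/

set_option autoImplicit false

namespace Pool.Agent.MAP

open Pool.Agent.helper58.DC

variable {G : Type} [Group G]

/-- The central character of `B` at the class sum of `g` is not `0` modulo `M`. -/
def NonVan (M : Ideal (integralClosure ℤ ℂ)) (χ : G → ℂ) (g : G) : Prop :=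
  ∀ a ∈ M, omega χ g ≠ ((a : integralClosure ℤ ℂ) : ℂ)

/-- `D` is a defect group of `B`, in the form of Brauer's min-max theorem: `D` is a Sylow `p`-subgroup of `C_G(x)` for
a `p`-regular element `x` with `NonVan M χ x`, and `|D|` is smallest possible: for every `y ∈ G` with
`NonVan M χ y` the order of a Sylow `p`-subgroup of `C_G(y)` is at least `|D|`. -/
def DefectGroup (p : ℕ) (M : Ideal (integralClosure ℤ ℂ)) (χ : G → ℂ) (D : Subgroup G) : Prop :=
  ∃ x : G, ¬ p ∣ orderOf x ∧ NonVan M χ x ∧ D ≤ Subgroup.centralizer {x} ∧ IsPGroup p D ∧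
    ¬ p ∣ D.relIndex (Subgroup.centralizer {x}) ∧
    ∀ y : G, NonVan M χ y → ∃ Q : Subgroup G, Q ≤ Subgroup.centralizer {y} ∧ IsPGroup p Q ∧
      Nat.card D ≤ Nat.card Q

/-- Some element `z` of the centre of `D` is not in the commutator subgroup `[D, D]` (for example, `D` is abelian and
`D ≠ 1`). -/
def CentreOut (D : Subgroup G) : Prop :=
  ∃ z ∈ D, (∀ d ∈ D, z * d = d * z) ∧ z ∉ ⁅D, D⁆

/-- `W` has a cyclic normal subgroup `C` of `p`-power index, such that no prime divisor `l` of `|C|` is congruent to `0`,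
`1` or `-1` modulo `p`. -/
def Adm {A : Type} [Group A] (p : ℕ) (W : Subgroup A) : Prop :=
  ∃ C : Subgroup A, C ≤ W ∧ (∀ w ∈ W, ∀ c ∈ C, w * c * w⁻¹ ∈ C) ∧ IsCyclic C ∧
    (∃ k : ℕ, C.relIndex W = p ^ k) ∧
    ∀ l : ℕ, l.Prime → l ∣ Nat.card C → ¬ p ∣ l ∧ ¬ p ∣ l ^ 2 - 1

end Pool.Agent.MAP
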