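import Mathlib
import Pool.Agent.helper22.OB.SpecD

/-!
# Project tz (MP_baa4d7_al): Dehn twists and the blocks with `Z(D)` not contained in `[D, D]`, all primes. Definitions.

`PCh`, `cc`, `Irr`, `IrrOn`, `nrm`, `chainMap` are those of `helper81/DI/Defs.lean` and `helper58/DC/Defs.lean`; `Setup`,
`IntAt`, `InM`, `PEl` those of `helper83/GR`; `W`, `cj`, `pp`, `To`, `aB` those of `helper12/OB/Defs.lean`, `ind`, `DefAt`
those of `helper22/OB/SpecU`, `SpecD`.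
-/

set_option autoImplicit false

namespace Pool.Agent.TZ

open Pool.Agent.helper58.DC Pool.Agent.DI Pool.Agent.GR Pool.Agent.OB

section

variable {G : Type} [Group G]

/-- `C_H(y) = 1` -/
def Fr (y : G) (H : Subgroup G) : Prop := ∀ h ∈ H, h * y = y * h → h = 1

/-- `H` commutes with `s` -/
def Cm (s : G) (H : Subgroup G) : Prop := ∀ h ∈ H, h * s = s * h

theorem nx_comm {s u : G} {U : Subgroup G} (h1 : ∀ v ∈ U, u * v = v * u) (h2 : u * s = s * u) :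
    ∀ b ∈ U ⊔ Subgroup.zpowers s, u * b = b * u := by
  have h3 : U ⊔ Subgroup.zpowers s ≤ Subgroup.centralizer {u} := by
    refine sup_le ?_ ?_
    · intro v hv
      rw [Subgroup.mem_centralizer_singleton_iff]
      exact (h1 v hv).symm
    · rw [Subgroup.zpowers_le, Subgroup.mem_centralizer_singleton_iff]
      exact h2.symm
  intro b hb
  exact (Subgroup.mem_centralizer_singleton_iff.1 (h3 hb)).symm

/-- One step of the growth: the `u ∈ H` which commute with the elements of `U` and with `s`, such that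
`y⁻¹ u y u⁻¹ ∈ U ⟨s⟩`. -/
def nx (s y : G) (H U : Subgroup G) : Subgroup G where
  carrier := {u | u ∈ H ∧ (∀ v ∈ U, u * v = v * u) ∧ u * s = s * u ∧
    y⁻¹ * u * y * u⁻¹ ∈ U ⊔ Subgroup.zpowers s}
  one_mem' := ⟨H.one_mem, fun v _ => by simp, by simp, by simp⟩
  mul_mem' := by
    rintro a b ⟨ha, ha1, ha2, ha3⟩ ⟨hb, hb1, hb2, hb3⟩
    refine ⟨H.mul_mem ha hb, fun v hv => ?_, ?_, ?_⟩
    · rw [mul_assoc, hb1 v hv, ← mul_assoc, ha1 v hv, mul_assoc]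
    · rw [mul_assoc, hb2, ← mul_assoc, ha2, mul_assoc]
    · have h1 := nx_comm ha1 ha2 _ hb3
      have h2 : y⁻¹ * (a * b) * y * (a * b)⁻¹ =
          (y⁻¹ * a * y * a⁻¹) * (y⁻¹ * b * y * b⁻¹) := by
        have h3 : a * (y⁻¹ * b * y * b⁻¹) * a⁻¹ = y⁻¹ * b * y * b⁻¹ := by
          rw [h1, mul_assoc, mul_inv_cancel, mul_one]
        calc y⁻¹ * (a * b) * y * (a * b)⁻¹
            = (y⁻¹ * a * y * a⁻¹) * (a * (y⁻¹ * b * y * b⁻¹) * a⁻¹) := by group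
          _ = _ := by rw [h3]
      rw [h2]
      exact Subgroup.mul_mem _ ha3 hb3
  inv_mem' := by
    rintro a ⟨ha, ha1, ha2, ha3⟩
    refine ⟨H.inv_mem ha, fun v hv => ?_, ?_, ?_⟩
    · rw [inv_mul_eq_iff_eq_mul, ← mul_assoc, ha1 v hv, mul_assoc, mul_inv_cancel, mul_one]
    · rw [inv_mul_eq_iff_eq_mul, ← mul_assoc, ha2, mul_assoc, mul_inv_cancel, mul_one]
    · have h1 := nx_comm ha1 ha2 _ (Subgroup.inv_mem _ ha3)
      have h2 : y⁻¹ * a⁻¹ * y * a⁻¹⁻¹ = (y⁻¹ * a * y * a⁻¹)⁻¹ := by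
        have h3 : a⁻¹ * (y⁻¹ * a * y * a⁻¹)⁻¹ * a = (y⁻¹ * a * y * a⁻¹)⁻¹ := by
          rw [mul_assoc, ← h1, ← mul_assoc, inv_mul_cancel, one_mul]
        calc y⁻¹ * a⁻¹ * y * a⁻¹⁻¹ = a⁻¹ * (y⁻¹ * a * y * a⁻¹)⁻¹ * a := by group
          _ = _ := h3
      rw [h2]
      exact Subgroup.inv_mem _ ha3

/-- The growth `U_0 = 1`, `U_(i+1) = nx U_i`. -/
def Ul (s y : G) (H : Subgroup G) : ℕ → Subgroup G
  | 0 => ⊥
  | i + 1 => nx s y H (Ul s y H i)

/-- The limit `U` of the growth. -/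
def Ui (s y : G) (H : Subgroup G) : Subgroup G := ⨆ i, Ul s y H i

/-- The group `U ⟨s⟩`. -/
def Bi (s y : G) (H : Subgroup G) : Subgroup G := Ui s y H ⊔ Subgroup.zpowers s

/-- A triple `(t, y, C)`. -/
abbrev Tr (G : Type) [Group G] := G × G × Finset (Subgroup G)

/-- conjugation of a triple -/
noncomputable def cjT (d : G) (x : Tr G) : Tr G :=
  (d * x.1 * d⁻¹, d * x.2.1 * d⁻¹, chainMap (MulAut.conj d) x.2.2)

/-- right multiplication: `(t, y b, C)` -/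
def mR (x : Tr G) (b : G) : Tr G := (x.1, x.2.1 * b, x.2.2)

/-- The elements of `D` which commute with `t` and normalise `C`. -/
def HX (D : Subgroup G) (x : Tr G) : Subgroup G := D ⊓ Subgroup.centralizer {x.1} ⊓ nrm x.2.2

/-- The triples `(t, y, C)`, `C` a chain of `p`-subgroups with smallest term `1` normalised by `t`, `y`, `g`, with trivial
stabiliser in `D`. -/
def XX (p : ℕ) (g : G) (D : Subgroup G) : Set (Tr G) :=
  {x | PCh p ⊤ ⊥ x.2.2 ∧ x.1 ∈ nrm x.2.2 ∧ x.2.1 ∈ nrm x.2.2 ∧ g ∈ nrm x.2.2 ∧ Fr x.2.1 (HX D x)}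

/-- The group `U` of a triple; `s = t ^ m`. -/
def UX (m : ℕ) (D : Subgroup G) (x : Tr G) : Subgroup G := Ui (x.1 ^ m) x.2.1 (HX D x)

/-- The group `U ⟨s⟩` of a triple. -/
def BX (m : ℕ) (D : Subgroup G) (x : Tr G) : Subgroup G := Bi (x.1 ^ m) x.2.1 (HX D x)

/-- The weight of a triple. -/
noncomputable def wt (g : G) (ζ : G → ℂ) (x : Tr G) : ℂ :=
  (-1) ^ (x.2.2.card + 1) * ζ (x.1 * x.2.1 * x.1⁻¹ * x.2.1⁻¹ * g)⁻¹

/-- The class of a triple: the `d (t, y b, C) d⁻¹`, `d ∈ D`, `b ∈ U ⟨s⟩`. -/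
def cls (m : ℕ) (D : Subgroup G) (x : Tr G) : Set (Tr G) :=
  {x' | ∃ d ∈ D, ∃ b ∈ BX m D x, x' = cjT d (mR x b)}

/-- `σ ^ i x = κ x` for the twist `σ (t, y, C) = (t, y s, C)`. -/
def RL (m : ℕ) (D : Subgroup G) (x : Tr G) (i : ℕ) (κ : G) : Prop :=
  κ ∈ HX D x ∧ κ * x.2.1 * κ⁻¹ = x.2.1 * (x.1 ^ m) ^ i

/-- `p ^ a` is the smallest `i > 0` such that `σ ^ i x` is in the `D`-orbit of `x`, and `σ ^ (p ^ a) x = κ x`. -/
def QK (p m a : ℕ) (D : Subgroup G) (x : Tr G) (κ : G) : Prop :=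
  RL m D x (p ^ a) κ ∧ ∀ i, 0 < i → i < p ^ a → ∀ κ', ¬ RL m D x i κ'

end

section

variable {D X : Type} [Group D]

/-- The transfer of `τ`, for the coordinate `k` on `X`, the weights `w` and the homomorphism `f`. -/
noncomputable def Ph {n : ℕ} (f : D →* Multiplicative (ZMod n)) (k : X → D) (w : X → ℂ)
    (τ : Equiv.Perm X) : ℂ :=
  ∑ᶠ x ∈ {x : X | k x = 1}, w x * ((Multiplicative.toAdd (f (k (τ x)))).val : ℂ)

/-- The elements `x` such that `p ^ a` is the smallest `i > 0` with `σ ^ i x` in the `D`-orbit of `x`, and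
`σ ^ (p ^ a) x = κ x` with `f κ = u`. -/
def Xq {n : ℕ} (p : ℕ) (act : D →* Equiv.Perm X) (f : D →* Multiplicative (ZMod n)) (σ : Equiv.Perm X) (a : ℕ)
    (u : ZMod n) : Set X :=
  {x | (∀ i, 0 < i → i < p ^ a → ∀ κ, (σ ^ i) x ≠ act κ x) ∧
    ∃ κ, (σ ^ (p ^ a)) x = act κ x ∧ f κ = Multiplicative.ofAdd u}

end

end Pool.Agent.TZ
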