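import Mathlib
import Pool.Agent.helper12.TZ.Defs

/-!
# Project tz (MP_baa4d7_al): Dehn twists, all primes

TARGET (FNV). Let `p` be ANY prime, `O_p(G) = 1`, `B` a block of `G` with a defect group `D` such that `Z(D)` is not
contained in `[D, D]` (for example `D ≠ 1` abelian). Then the alternating sum of the numbers `k(N_G(C), B)` is divisible by `p`.

IDEA. Let `g ∈ G` commute with the `p`-subgroup `D`. `D` acts by conjugation on the triples `(t, y, C)`, `C` a chain of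
`p`-subgroups normalised by `t`, `y`, `g`; those with nontrivial stabiliser cancel, `XX` is the set of the others. The maps
`α : y ↦ y t`, `β : t ↦ t y⁻¹`, `γ : y ↦ g t y` commute with `D`, preserve the weights, satisfy the braid relations and
`(α β γ) ^ 4` is conjugation by `g`. The transfer `Ph` to `ZMod (p ^ c)` along a homomorphism `f` from `D` is additive, so
`f(g ^ m) r = 12 Ph(α ^ m)`, where `r = (sum of the weights) / |D|`. `Ph(α ^ m) = 0`: for `x = (t, y, C)` let `s = t ^ m` (a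
`p`-element), `H` the stabiliser of `(t, C)` in `D` and `U` the limit of the growth `U_(i+1) = {u ∈ H | y⁻¹ u y u⁻¹ ∈ U_i ⟨s⟩}`, an
abelian group. The class `cls x` of all `d (t, y b, C) d⁻¹`, `d ∈ D`, `b ∈ U ⟨s⟩`, has `|D| |s|` elements if `U ⊓ ⟨s⟩ = 1`
(CLN), which kills their contribution; if `U ⊓ ⟨s⟩ ≠ 1` then `U` contains a subgroup `E ≠ 1` normalised by `y` (EXI) and the
sum over the chains `C` is `0` (TOG). (In this file `x.1 = t`, `x.2.1 = y`, `x.2.2 = C`, `s = t ^ m`.)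

RULES FOR MODULES. File `Pool/Agent/<seat>/TZ/XX.lean` with

  import Pool.Agent.helper12.TZ.Spec
  set_option autoImplicit false
  namespace Pool.Agent.TZ
  open Pool.Agent.helper58.DC Pool.Agent.DI Pool.Agent.GR Pool.Agent.OB
  theorem XX (hYY : YY_stmt) ... : XX_stmt := ...
  end Pool.Agent.TZ

auxiliary lemmas prefixed `XX_`, no sorry, no double quotes in the file. Other statements enter only as hypotheses; any
statement of this file and of `helper12/OB/Spec{A,B,C}`, `helper22/OB/Spec{U,D,G}`, `helper81/DI/Spec{A,B,C,D}`,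
`helper83/GR/Spec`, `helper22/WC/Spec`, `helper58/DC/Spec1` may be taken as a hypothesis, also if it is not listed (those
of the other files are all proved).
-/

set_option autoImplicit false

namespace Pool.Agent.TZ

open Pool.Agent.helper58.DC Pool.Agent.DI Pool.Agent.GR Pool.Agent.OB

/-! ## A. The growth -/

/-- **UAB** (short). The growth is increasing and abelian. Proof: induction on `i`; `U_0 = ⊥`. Let `U_i` be abelian and
`U_i ≤ U_(i+1)`. (1) `U_(i+1)` is abelian: let `u, v ∈ U_(i+1)`, `b = y⁻¹ u y u⁻¹`, `c = y⁻¹ v y v⁻¹`, both in `U_i ⟨s⟩`. By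
`nx_comm` `u` commutes with `c`, `v` with `b` and (elements of `U_i` and `s` commute with `U_i` and `s`) `b` with `c`. So
`y⁻¹ (u v) y = (b u) (c v) = b c (u v)`, `y⁻¹ (v u) y = (c v) (b u) = b c (v u)`, and `h = (v u)⁻¹ (u v)` satisfies
`y⁻¹ h y = h`; `h ∈ H`, so `h = 1` by `Fr`. (2) `U_(i+1) ≤ U_(i+2)`: `u ∈ U_(i+1)` commutes with `U_(i+1)` by (1), and
`U_i ⊔ ⟨s⟩ ≤ U_(i+1) ⊔ ⟨s⟩`. -/
def UAB_stmt : Prop :=
  ∀ (G : Type) [Group G] (s y : G) (H : Subgroup G), Cm s H → Fr y H → ∀ i : ℕ,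
    (∀ u ∈ Ul s y H i, ∀ v ∈ Ul s y H i, u * v = v * u) ∧ Ul s y H i ≤ Ul s y H (i + 1)

/-- **CEN** (short). The commutation is automatic. Proof: `b = y⁻¹ u y u⁻¹ ∈ U_i ⟨s⟩`. Show by induction on `j` that for
`j ≤ i` `u` commutes with `U_j`. Let `v ∈ U_(j+1)`, `j + 1 ≤ i`, `c = y⁻¹ v y v⁻¹ ∈ U_j ⟨s⟩`. `u` commutes with `U_j` and `s`
(`Cm`), so with `c` (`nx_comm`); `v ∈ U_(j+1) ≤ U_i` (UAB) commutes with `b ∈ U_i ⟨s⟩`; `b` commutes with `c`. As in UAB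
`(v u)⁻¹ (u v) ∈ H` commutes with `y`, so it is `1`. Uses: UAB. -/
def CEN_stmt : Prop :=
  ∀ (G : Type) [Group G] (s y : G) (H : Subgroup G), Cm s H → Fr y H → ∀ i : ℕ, ∀ u ∈ H,
    y⁻¹ * u * y * u⁻¹ ∈ Ul s y H i ⊔ Subgroup.zpowers s → u ∈ Ul s y H (i + 1)

/-- **STB** (short). The limit. Proof: `Ul` is monotone (UAB, `monotone_nat_of_le_succ`) and `Subgroup G` is finite, so it is
constant from some `N` on, and `Ui = Ul N = Ul (N + 1)`. `Ui ≤ H` by definition of `nx`. `Bi` is abelian: the elements of `Ui` commute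
with `Ui` (UAB) and `s` (`Cm`); `nx_comm` twice. The equivalence: CEN for `N`, and the definition of `nx`. Uses: UAB, CEN. -/
def STB_stmt : Prop :=
  ∀ (G : Type) [Group G] [Finite G] (s y : G) (H : Subgroup G), Cm s H → Fr y H →
    (∃ N : ℕ, ∀ i, N ≤ i → Ul s y H i = Ui s y H) ∧ Ui s y H ≤ H ∧
    (∀ b ∈ Bi s y H, ∀ c ∈ Bi s y H, b * c = c * b) ∧
    ∀ u ∈ H, (y⁻¹ * u * y * u⁻¹ ∈ Bi s y H ↔ u ∈ Ui s y H)

/-- **RST** (short). Restriction. Proof: `Ul s y H₁ i = Ul s y H i` by induction: if `nx s y H U ≤ H₁ ≤ H` then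
`nx s y H₁ U = nx s y H U` (the other conditions are the same). -/
def RST_stmt : Prop :=
  ∀ (G : Type) [Group G] (s y : G) (H H₁ : Subgroup G), H₁ ≤ H → Ui s y H ≤ H₁ →
    Ui s y H₁ = Ui s y H

/-- **MON** (short). Proof: `Ul s y H i ≤ Ul s y H' i` by induction, with CEN for `H'`. Uses: CEN. -/
def MON_stmt : Prop :=
  ∀ (G : Type) [Group G] (s y : G) (H H' : Subgroup G), H ≤ H' → Cm s H' → Fr y H' →
    Ui s y H ≤ Ui s y H'

/-- **FRE** (short to medium). Proof: let `y' = y b`. By induction on `j` there is `d' ∈ K`, `d' ≠ 1`, which commutes with `y'` and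
with `U_j`. Step: `S = {d ∈ K | d commutes with y' and with U_j}` is a subgroup, a `p`-group and not `⊥`. It is normalised by
`U_(j+1)`: let `u ∈ U_(j+1) ≤ Ui ≤ K`, `c = y⁻¹ u y u⁻¹ ∈ U_j ⟨s⟩`; `u`, `b`, `c ∈ Bi` commute (STB), so `u⁻¹ y' u = y' c⁻¹`. For
`d ∈ S` (which commutes with `c` by `nx_comm`, `Cm s K`) `(u d u⁻¹) y' = u d (u⁻¹ y' u) u⁻¹ = u (y' c⁻¹) d u⁻¹ = y' (u d u⁻¹)`, and
`u d u⁻¹` commutes with `U_j` because `u` and `d` do. So the `p`-group `U_(j+1)` (a subgroup of `H`) acts on `S` by conjugation, and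
`|S|` is divisible by `p`; by `IsPGroup.card_modEq_card_fixedPoints` the number of the fixed points is divisible by `p`, so there is one
besides `1`. Finally `Ui = Ul N` (STB). Uses: STB. -/
def FRE_stmt : Prop :=
  ∀ (G : Type) [Group G] [Finite G] (p : ℕ) [Fact p.Prime] (s y : G) (H K : Subgroup G),
    IsPGroup p H → IsPGroup p K → Cm s H → Cm s K → Fr y H → Ui s y H ≤ K → ∀ b ∈ Bi s y H,
    ∀ d ∈ K, d ≠ 1 → d * (y * b) = y * b * d →
    ∃ d' ∈ K, d' ≠ 1 ∧ d' * (y * b) = y * b * d' ∧ ∀ u ∈ Ui s y H, d' * u = u * d'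

/-- **TRI** (short). Translation by `b`. Proof: `Fr`: let `h ∈ H` commute with `y b`, `h ≠ 1`. By FRE (`K = H`) we may assume that
`h` commutes with `Ui`; it commutes with `s`, so with `b ∈ Bi` and with `y`, a contradiction. `Ul s y H i ≤ Ul s (y * b) H i` by
induction: for `u ∈ Ul s y H (i + 1)` `u` and `c = y⁻¹ u y u⁻¹` commute with `b` (STB), so `(y b)⁻¹ u (y b) u⁻¹ = c`; use CEN for `y b`.
So `Ui s y H ≤ Ui s (y * b) H`; apply the same to `y b`, `b⁻¹`. Uses: FRE, STB, CEN. -/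
def TRI_stmt : Prop :=
  ∀ (G : Type) [Group G] [Finite G] (p : ℕ) [Fact p.Prime] (s y : G) (H : Subgroup G),
    IsPGroup p H → Cm s H → Fr y H → ∀ b ∈ Bi s y H,
    Fr (y * b) H ∧ Ui s (y * b) H = Ui s y H

/-- **EXI** (medium). A subgroup normalised by `y`. Proof: let `j` be the least `i` such that `Ul i ⊓ ⟨s⟩ ≠ ⊥` (it exists by STB, and
`j = i + 1` as `Ul 0 = ⊥`), `V = Ul i ⊔ ⟨s⟩`, an abelian group (`V ≤ Bi`), `E` the subgroup of the `v ∈ V` with `v ^ p = 1`. (1)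
`E ≤ Ul j ≤ Ui`: `v = u w`, `u ∈ Ul i`, `w ∈ ⟨s⟩` (in an abelian group; or `Subgroup.mem_sup` in a suitable form), `v ^ p = u ^ p w ^ p = 1`, so
`u ^ p = (w ^ p)⁻¹ ∈ Ul i ⊓ ⟨s⟩ = ⊥` and `w ^ p = 1`. Let `v₀ ≠ 1` be in `Ul j ⊓ ⟨s⟩`; in the cyclic `p`-group `⟨s⟩` every nontrivial subgroup
contains all elements `w` with `w ^ p = 1`, so `w ∈ ⟨v₀⟩ ≤ Ul j`; and `u ∈ Ul i ≤ Ul j`. (2) `y⁻¹ e y ∈ E` for `e ∈ E`: by (1) and the
definition of `Ul j = nx (Ul i)` `y⁻¹ e y e⁻¹ ∈ V`, so `y⁻¹ e y ∈ V`, and its `p`-th power is `1`. (3) `E ≠ ⊥`: a power of `v₀` has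
order `p`. Uses: STB, UAB. -/
def EXI_stmt : Prop :=
  ∀ (G : Type) [Group G] [Finite G] (p : ℕ) [Fact p.Prime] (s y : G) (H : Subgroup G),
    IsPGroup p H → Cm s H → Fr y H → PEl p s → Ui s y H ⊓ Subgroup.zpowers s ≠ ⊥ →
    ∃ E : Subgroup G, E ≤ Ui s y H ∧ E ≠ ⊥ ∧ ∀ e ∈ E, y⁻¹ * e * y ∈ E

/-- **EQV** (short). Conjugation. Proof: `cj d (nx s y H U) = nx (d s d⁻¹) (d y d⁻¹) (cj d H) (cj d U)` (`Subgroup.map_sup`,
`MonoidHom.map_zpowers`), so the same for `Ul` by induction, and `Subgroup.map_iSup`. -/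
def EQV_stmt : Prop :=
  ∀ (G : Type) [Group G] (d s y : G) (H : Subgroup G),
    Ui (d * s * d⁻¹) (d * y * d⁻¹) (cj d H) = cj d (Ui s y H) ∧
    Bi (d * s * d⁻¹) (d * y * d⁻¹) (cj d H) = cj d (Bi s y H)

/-! ## B. Chains and triples -/

/-- **CHF** (short to medium). Chains with trivial stabiliser. Proof: for `S ≤ R` let `F S` be the sum of the signs over the chains `C` with
`PCh p ⊤ ⊥ C`, `H ≤ nrm C`, `R ⊓ nrm C = S`. For `S ≤ R` the sum of `F S'` over the `S'` with `S ≤ S' ≤ R` is `W p (H ⊔ S)`. For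
`S ≠ ⊥` this is `0` by WCJ (2): `S` is a `p`-group, `S ≤ H ⊔ S`, and `H` centralises `S`, so `H ⊔ S ≤ nz S`. So `F S = 0` for all
`S ≠ ⊥` by downward induction, and `F ⊥ = W p H`; the condition `∀ d ∈ R, d ∈ nrm C → d = 1` says `R ⊓ nrm C = ⊥`. Uses: WCJ. -/
def CHF_stmt : Prop :=
  ∀ (G : Type) [Group G] [Finite G] (p : ℕ) [Fact p.Prime] (H R : Subgroup G), IsPGroup p R →
    (∀ r ∈ R, ∀ h ∈ H, r * h = h * r) →
    ∑ᶠ C ∈ {C : Finset (Subgroup G) | PCh p ⊤ ⊥ C ∧ H ≤ nrm C ∧ ∀ d ∈ R, d ∈ nrm C → d = 1},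
      (-1 : ℤ) ^ (C.card + 1) = W p H

/-- **TXS** (short). The sum of the weights. Proof: for fixed `(t, y)` CHF with `H = closure {t, y, g}` (`H ≤ nrm C` iff
`t, y, g ∈ nrm C`) and `R = D ⊓ centralizer {t} ⊓ centralizer {y}`, which centralises `H`. The condition `Fr y (HX D (t, y, C))` says
exactly `∀ d ∈ R, d ∈ nrm C → d = 1`. Uses: CHF. -/
def TXS_stmt : Prop :=
  ∀ (G : Type) [Group G] [Finite G] (p : ℕ) [Fact p.Prime] (g : G) (D : Subgroup G), IsPGroup p D →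
    (∀ d ∈ D, d * g = g * d) → ∀ ζ : G → ℂ,
    ∑ᶠ x ∈ XX p g D, wt g ζ x = ∑ᶠ x : G × G, ζ (x.1 * x.2 * x.1⁻¹ * x.2⁻¹ * g)⁻¹ *
      (W p (Subgroup.closure {x.1, x.2, g}) : ℂ)

/-- **TOG** (medium). The chains with given `U`, if `U ⊓ ⟨s⟩ ≠ ⊥`. Proof: write `f U` for the sum. Downward induction on `U` (strong
induction: assume `f U' = 0` for all `U' > U`; note `U' ⊓ ⟨s⟩ ≠ ⊥` too). If there is no `C` with the conditions the sum is empty.
Otherwise let `C₀` be one, `H₀ = HX D (t, y, C₀)`, so `U = Ui s y H₀`, `Cm s H₀`, `Fr y H₀`. Let `𝒞` be the set of the chains `C` with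
`PCh p ⊤ ⊥ C` and `K ≤ nrm C` for `K = closure ({t, y, g} ∪ U)`, `R = D ⊓ C(t) ⊓ C(y) ⊓ cz U`; `R` centralises `K`. (1) By CHF
the sum over the `C ∈ 𝒞` with `R ⊓ nrm C = 1` is `W p K`, and `W p K = 0` by WCJ (2) for the `E` of EXI: `E ≤ U ≤ K` is a
`p`-group, `t`, `g` and `U` (abelian, STB) centralise `E`, `y` normalises it (`y⁻¹ E y ≤ E`, finite). (2) For `C ∈ 𝒞`
`(t, y, C) ∈ XX` iff `R ⊓ nrm C = 1`: let `K' = HX D (t, y, C)`, so `U ≤ K'` (`U ≤ H₀ ≤ D ⊓ C(t)`); if some `d ≠ 1` of `K'` commutes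
with `y`, FRE (`H = H₀`, `K = K'`, `b = 1`) gives such a `d'` in `R ⊓ nrm C`. (3) For `C ∈ 𝒞` with `(t, y, C) ∈ XX` and
`U' = UX m D (t, y, C)` we have `U = Ui s y U ≤ U'` (RST for `U ≤ H₀`, MON for `U ≤ K'`). Conversely if `(t, y, C) ∈ XX` and
`U ≤ UX m D (t, y, C) = U'` then `U ≤ U' ≤ HX ≤ nrm C`, so `C ∈ 𝒞`. So `0` is the sum of the `f U'` over all `U' ≥ U`, and
`f U = 0`. Uses: CHF, EXI, FRE, RST, MON, STB, WCJ. -/
def TOG_stmt : Prop :=
  ∀ (G : Type) [Group G] [Finite G] (p m : ℕ) [Fact p.Prime] (g : G) (D : Subgroup G), IsPGroup p D →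
    (∀ d ∈ D, d * g = g * d) → (∀ t : G, PEl p (t ^ m)) → ∀ (t y : G) (U : Subgroup G),
    U ⊓ Subgroup.zpowers (t ^ m) ≠ ⊥ →
    ∑ᶠ C ∈ {C : Finset (Subgroup G) | (t, y, C) ∈ XX p g D ∧ UX m D (t, y, C) = U},
      (-1 : ℤ) ^ (C.card + 1) = 0

/-- **CLA** (short). Translation of a triple. Proof: `HX D (mR x b) = HX D x` (by definition), `Cm s (HX D x)`; TRI. `y b ∈ nrm C`
because `BX ≤ nrm C`: `UX ≤ HX ≤ nrm C` (STB), `s = t ^ m ∈ nrm C`. Uses: TRI, STB. -/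
def CLA_stmt : Prop :=
  ∀ (G : Type) [Group G] [Finite G] (p m : ℕ) [Fact p.Prime] (g : G) (D : Subgroup G), IsPGroup p D →
    ∀ x ∈ XX p g D, ∀ b ∈ BX m D x, mR x b ∈ XX p g D ∧ UX m D (mR x b) = UX m D x

/-- **CLB** (short to medium). Conjugation of a triple. Proof: `nrm (chainMap (MulAut.conj d) C) = cj d (nrm C)` (NM of DC), the image of a
chain with `PCh` is one; `HX D (cjT d x) = cj d (HX D x)` (`cj d D = D`), `g = d g d⁻¹ ∈ cj d (nrm C)`; EQV with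
`(d t d⁻¹) ^ m = d t ^ m d⁻¹`. Uses: EQV, NM of DC. -/
def CLB_stmt : Prop :=
  ∀ (G : Type) [Group G] [Finite G] (p m : ℕ) (g : G) (D : Subgroup G),
    (∀ d ∈ D, d * g = g * d) → ∀ d ∈ D, ∀ x ∈ XX p g D, cjT d x ∈ XX p g D ∧
      HX D (cjT d x) = cj d (HX D x) ∧ UX m D (cjT d x) = cj d (UX m D x) ∧
      BX m D (cjT d x) = cj d (BX m D x)

/-- **CLC** (short to medium). The classes form a partition. Proof: `x = cjT 1 (mR x 1)`. Let `x' = cjT d (mR x b)`. By CLA, CLB `x' ∈ XX` and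
`BX x' = cj d (BX x)`. `cjT` is an action (`chainMap` of a product: see `Extension.stab` in `helper58/DC/Defs`),
`mR (cjT d z) (d c d⁻¹) = cjT d (mR z c)`. So for `b' = d c d⁻¹ ∈ BX x'`, `c ∈ BX x`,
`cjT d' (mR x' b') = cjT (d' d) (mR x (b c))`, and `cls x' ⊆ cls x`; `x = cjT d⁻¹ (mR x' (d b⁻¹ d⁻¹)) ∈ cls x'`, so equality holds.
Uses: CLA, CLB. -/
def CLC_stmt : Prop :=
  ∀ (G : Type) [Group G] [Finite G] (p m : ℕ) [Fact p.Prime] (g : G) (D : Subgroup G), IsPGroup p D →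
    (∀ d ∈ D, d * g = g * d) → ∀ x ∈ XX p g D, x ∈ cls m D x ∧
      ∀ x' ∈ cls m D x, x' ∈ XX p g D ∧ cls m D x' = cls m D x

/-- **CLN** (medium). The number of elements of a class. Proof: let `U = UX x`, `B = BX x`, `s = t ^ m`. Consider the surjective map
`(d, b) ↦ cjT d (mR x b)` from `D × B` to `cls x`. Let `(d, b)`, `(d', b')` have the same image and `u = d'⁻¹ d`: then
`cjT u (mR x b) = mR x b'`, so `u` commutes with `t`, normalises `C` (SN of DC), `u ∈ HX`, and `u (y b) = (y b') u`, so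
`(y b)⁻¹ u (y b) u⁻¹ = b⁻¹ b' ∈ B = Bi s (y b) H` (TRI) and `u ∈ Ui s (y b) H = U` (STB for `y b`). Conversely for `(d, b)` and `u ∈ U` put
`d' = d u⁻¹`, `b' = b ((y b)⁻¹ u (y b) u⁻¹) ∈ B`; then the images agree. So all fibres have `|U|` elements and
`|cls x| |U| = |D| |B|`. As `B = U ⊔ ⟨s⟩` is abelian and `U ⊓ ⟨s⟩ = ⊥`, `|B| = |U| |⟨s⟩|` (`U × ⟨s⟩ → B` is bijective), and
`|⟨s⟩| = orderOf s` (`Nat.card_zpowers`). Uses: TRI, STB, SN of DC. -/
def CLN_stmt : Prop :=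
  ∀ (G : Type) [Group G] [Finite G] (p m : ℕ) [Fact p.Prime] (g : G) (D : Subgroup G), IsPGroup p D →
    (∀ d ∈ D, d * g = g * d) → ∀ x ∈ XX p g D, UX m D x ⊓ Subgroup.zpowers (x.1 ^ m) = ⊥ →
    Nat.card (cls m D x) = Nat.card D * orderOf (x.1 ^ m)

/-- **INV** (short to medium). Invariance on the classes. Proof: two steps, `mR x b` and `cjT d x`. WEIGHTS: `b ∈ BX` commutes with `t` (`UX ≤ HX`, STB;
`s = t ^ m`), so `t (y b) t⁻¹ (y b)⁻¹ = t y t⁻¹ y⁻¹`; `d` commutes with `g`, so the argument of `ζ` is conjugated by `d`; `chainMap`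
preserves the number of terms. `U ⊓ ⟨s⟩`: CLA, CLB (`cj d` of `⊥`). QK: if `RL m D x i κ` then `y⁻¹ κ y κ⁻¹ = s ^ i` (`κ` commutes
with `s`), so `κ ∈ UX` (STB), `κ` commutes with `b`, and `κ (y b) κ⁻¹ = y s ^ i b = y b s ^ i` (`Bi` abelian), i.e.
`RL m D (mR x b) i κ`; the converse by symmetry (`x = mR (mR x b) b⁻¹`, `BX (mR x b) = BX x`, CLA). So `QK` is the same for `mR x b`.
`RL m D (cjT d x) i (d κ d⁻¹) ↔ RL m D x i κ` (CLB for `HX`). Uses: CLA, CLB, STB, NM of DC. -/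
def INV_stmt : Prop :=
  ∀ (G : Type) [Group G] [Finite G] (p m : ℕ) [Fact p.Prime] (g : G) (D : Subgroup G), IsPGroup p D →
    (∀ d ∈ D, d * g = g * d) → ∀ x ∈ XX p g D, ∀ x' ∈ cls m D x,
    (∀ ζ : G → ℂ, (∀ u v, ζ (v * u * v⁻¹) = ζ u) → wt g ζ x' = wt g ζ x) ∧
    (UX m D x ⊓ Subgroup.zpowers (x.1 ^ m) = ⊥ → UX m D x' ⊓ Subgroup.zpowers (x'.1 ^ m) = ⊥) ∧
    ∀ (a : ℕ) (κ : G), QK p m a D x κ → ∃ d ∈ D, QK p m a D x' (d * κ * d⁻¹)

/-- **ORK** (short). The order of `κ`. Proof: `y⁻¹ κ y κ⁻¹ = s ^ (p ^ a)` (`κ` commutes with `s`), so `κ ∈ UX` (STB). By induction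
`κ ^ j y κ ^ (-j) = y s ^ (p ^ a j)`. So `κ ^ j = 1` iff `s ^ (p ^ a j) = 1` (if the latter holds `κ ^ j ∈ HX` commutes with `y`, `Fr`).
The order of `s` is `p ^ n`; `a ≤ n`, otherwise `RL m D x (p ^ n) 1` contradicts the minimality. So
`orderOf κ = orderOf (s ^ (p ^ a)) = p ^ (n - a)`. Uses: STB. -/
def ORK_stmt : Prop :=
  ∀ (G : Type) [Group G] [Finite G] (p m a : ℕ) [Fact p.Prime] (g : G) (D : Subgroup G), IsPGroup p D →
    ∀ x ∈ XX p g D, PEl p (x.1 ^ m) → ∀ κ : G, QK p m a D x κ →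
    κ ∈ UX m D x ∧ orderOf (x.1 ^ m) = p ^ a * orderOf κ

/-- **PAR** (short). Sums over a partition. Proof: strong induction on the number of elements of `Z`: remove the class of one element; or
`Finset.sum_fiberwise` for the map `c` to `Set T`: on the fibre of `c x`, which is `c x`, `w` is constant. -/
def PAR_stmt : Prop :=
  ∀ (T : Type) [Finite T] (Z : Set T) (c : T → Set T) (n : ℕ) (w : T → ℂ) (I : AddSubgroup ℂ),
    (∀ x ∈ Z, x ∈ c x) → (∀ x ∈ Z, ∀ x' ∈ c x, x' ∈ Z ∧ c x' = c x ∧ w x' = w x) →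
    (∀ x ∈ Z, n ∣ Nat.card (c x)) → (∀ x ∈ Z, w x ∈ I) →
    ∃ v ∈ I, ∑ᶠ x ∈ Z, w x = (n : ℂ) * v

/-- **HDA** (short). The triples with `U ⊓ ⟨s⟩ = ⊥`. Proof: PAR for `c = cls m D` (`CLC`, `INV`: `f` is invariant under conjugation in `D`
because its target is commutative), `I` the set of the `v` with `IntAt M v`; by CLN and ORK the number of elements of the class is
`|D| p ^ a orderOf κ`, and `addOrderOf u = orderOf (f κ)` divides `orderOf κ`. Uses: PAR, CLC, CLN, INV, ORK. -/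
def HDA_stmt : Prop :=
  ∀ (p m c a : ℕ) (M : Ideal (integralClosure ℤ ℂ)), Setup p M → ∀ (G : Type) [Group G] [Finite G]
    (g : G) (D : Subgroup G), IsPGroup p D → (∀ d ∈ D, d * g = g * d) → (∀ t : G, PEl p (t ^ m)) →
    ∀ ζ : G → ℂ, ClF M ζ → ∀ (f : D →* Multiplicative (ZMod (p ^ c))) (u : ZMod (p ^ c)),
    ∃ v, IntAt M v ∧ ∑ᶠ x ∈ {x : Tr G | x ∈ XX p g D ∧
      UX m D x ⊓ Subgroup.zpowers (x.1 ^ m) = ⊥ ∧
      ∃ κ : D, QK p m a D x κ ∧ f κ = Multiplicative.ofAdd u}, wt g ζ x =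
      ((addOrderOf u * p ^ a * Nat.card D : ℕ) : ℂ) * v

/-- **HDB** (short). The triples with `U ⊓ ⟨s⟩ ≠ ⊥`. Proof: group the triples by `(t, y, UX m D x)`; the weight is
`(-1) ^ (C.card + 1) ζ(..)` and `ζ(..)` depends only on `(t, y)`; TOG. Uses: TOG. -/
def HDB_stmt : Prop :=
  ∀ (G : Type) [Group G] [Finite G] (p m : ℕ) [Fact p.Prime] (g : G) (D : Subgroup G), IsPGroup p D →
    (∀ d ∈ D, d * g = g * d) → (∀ t : G, PEl p (t ^ m)) → ∀ (ζ : G → ℂ)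
    (P : G → G → Subgroup G → Prop),
    ∑ᶠ x ∈ {x : Tr G | x ∈ XX p g D ∧ UX m D x ⊓ Subgroup.zpowers (x.1 ^ m) ≠ ⊥ ∧
      P x.1 x.2.1 (UX m D x)}, wt g ζ x = 0

/-- **QKU** (short). `QK` depends only on `t`, `y` and `U`. Proof: if `RL m D x i κ` then `y⁻¹ κ y κ⁻¹ = s ^ i`, so `κ ∈ UX` (STB); and
`UX ≤ HX` (STB). Uses: STB. -/
def QKU_stmt : Prop :=
  ∀ (G : Type) [Group G] [Finite G] (p m a : ℕ) [Fact p.Prime] (g : G) (D : Subgroup G), IsPGroup p D →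
    ∀ x ∈ XX p g D, ∀ κ : G, QK p m a D x κ ↔
      κ ∈ UX m D x ∧ κ * x.2.1 * κ⁻¹ = x.2.1 * (x.1 ^ m) ^ p ^ a ∧
      ∀ i, 0 < i → i < p ^ a → ∀ κ' ∈ UX m D x, κ' * x.2.1 * κ'⁻¹ ≠ x.2.1 * (x.1 ^ m) ^ i

/-- **HDV** (short). Proof: the set is the disjoint union of the set of HDA and of the one of HDB with
`P t y U := ∃ κ : D, κ ∈ U ∧ κ y κ⁻¹ = y (t ^ m) ^ (p ^ a) ∧ (∀ i, 0 < i → i < p ^ a → ∀ κ' ∈ U, ..) ∧ f κ = ofAdd u` (QKU).
Uses: HDA, HDB, QKU. -/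
def HDV_stmt : Prop :=
  ∀ (p m c a : ℕ) (M : Ideal (integralClosure ℤ ℂ)), Setup p M → ∀ (G : Type) [Group G] [Finite G]
    (g : G) (D : Subgroup G), IsPGroup p D → (∀ d ∈ D, d * g = g * d) → (∀ t : G, PEl p (t ^ m)) →
    ∀ ζ : G → ℂ, ClF M ζ → ∀ (f : D →* Multiplicative (ZMod (p ^ c))) (u : ZMod (p ^ c)),
    ∃ v, IntAt M v ∧ ∑ᶠ x ∈ {x : Tr G | x ∈ XX p g D ∧
      ∃ κ : D, QK p m a D x κ ∧ f κ = Multiplicative.ofAdd u}, wt g ζ x =
      ((addOrderOf u * p ^ a * Nat.card D : ℕ) : ℂ) * v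

/-! ## C. The transfer -/

/-- **HOM** (short to medium). The transfer is additive. Proof: let `S = {x | k x = 1}`. For `τ` commuting with the action put
`τ' x = act (k (τ x))⁻¹ (τ x)`, a bijection of `S` (its inverse is the same for `τ⁻¹`; `k (act d x) = d * k x`), `w (τ' x) = w x`. (1)
`X` is the disjoint union of the `act d S`: `(d, x) ↦ act d x` is a bijection `D × S → X`. (2) `k (act z x) = z` for `x ∈ S`. (3) For `x ∈ S`
`τ₁ (τ₂ x) = act (k (τ₂ x)) (τ₁ (τ₂' x))`, so `k (τ₁ (τ₂ x)) = k (τ₂ x) * k (τ₁ (τ₂' x))`. As `(a + b).val` is `a.val + b.val` or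
`a.val + b.val - n` (`ZMod.val_add`), the difference is `n` times an integral combination of the `w x`, and
`∑_{x ∈ S} w x (f (k (τ₁ (τ₂' x)))).val = Ph τ₁` by the substitution `x ↦ τ₂' x` and `w (τ₂' x) = w x`. -/
def HOM_stmt : Prop :=
  ∀ (p c : ℕ) (M : Ideal (integralClosure ℤ ℂ)), Setup p M → ∀ (D X : Type) [Group D] [Finite D]
    [Finite X] (act : D →* Equiv.Perm X) (w : X → ℂ) (f : D →* Multiplicative (ZMod (p ^ c)))
    (k : X → D), (∀ x, IntAt M (w x)) → (∀ d x, w (act d x) = w x) →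
    (∀ d x, k (act d x) = d * k x) →
    (∑ᶠ x, w x = (Nat.card D : ℂ) * ∑ᶠ x ∈ {x : X | k x = 1}, w x) ∧
    (∀ z, Ph f k w (act z) =
      ((Multiplicative.toAdd (f z)).val : ℂ) * ∑ᶠ x ∈ {x : X | k x = 1}, w x) ∧
    ∀ τ₁ τ₂ : Equiv.Perm X, (∀ d, τ₁ * act d = act d * τ₁) → (∀ d, τ₂ * act d = act d * τ₂) →
      (∀ x, w (τ₁ x) = w x) → (∀ x, w (τ₂ x) = w x) →
      ∃ v, IntAt M v ∧ Ph f k w (τ₁ * τ₂) - Ph f k w τ₁ - Ph f k w τ₂ = ((p ^ c : ℕ) : ℂ) * v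

/-- **ADP** (medium). The transfer of `σ`. Proof: for `x ∈ X` let `q x` be the least `i > 0` with `σ ^ i x ∈ D x`; the `i` with this property are
the multiples of `q x`, so `q x = p ^ a` with `a ≤ A` (`σ ^ p ^ A = 1`). Choose a representative `x₀` of every orbit of `D × ⟨σ⟩`
(the relation `∃ d i, x' = act d (σ ^ i x)`). Every `x` is `act d (σ ^ i x₀)` for exactly one pair `(d, i)` with `0 ≤ i < q x₀` (free
action, minimality of `q`); put `k x = d`. Then `k (act d x) = d * k x`, the `x` with `k x = 1` are the `σ ^ i x₀`, `i < q x₀`, and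
`k (σ (σ ^ i x₀))` is `1` for `i + 1 < q x₀` and `κ` for `i + 1 = q x₀`, `σ ^ (q x₀) x₀ = act κ x₀`. So `Ph f k w σ` is the sum
over the representatives of `w x₀ (f κ).val`. For `a` and `u` let `R` be the set of the representatives in `Xq a u`; as `Xq a u` is a union
of orbits, each with `|D| p ^ a` elements (`q` and `f κ` are constant on the orbits of `D × ⟨σ⟩`), the sum of `w` over `Xq a u` is
`|D| p ^ a ∑_{x₀ ∈ R} w x₀`, so `∑_{x₀ ∈ R} w x₀ = (addOrderOf u) v`, and `(addOrderOf u) u.val` is divisible by `p ^ c`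
(`addOrderOf_nsmul_eq_zero`, `ZMod.natCast_eq_zero_iff`). Sum over all `a ≤ A` and all `u`. -/
def ADP_stmt : Prop :=
  ∀ (p c A : ℕ) (M : Ideal (integralClosure ℤ ℂ)), Setup p M → ∀ (D X : Type) [Group D] [Finite D]
    [Finite X] (act : D →* Equiv.Perm X) (w : X → ℂ) (f : D →* Multiplicative (ZMod (p ^ c)))
    (σ : Equiv.Perm X), (∀ d x, act d x = x → d = 1) → (∀ x, IntAt M (w x)) →
    (∀ d x, w (act d x) = w x) → (∀ x, w (σ x) = w x) → (∀ d, σ * act d = act d * σ) →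
    σ ^ p ^ A = 1 →
    (∀ (a : ℕ) (u : ZMod (p ^ c)), ∃ v, IntAt M v ∧ ∑ᶠ x ∈ Xq p act f σ a u, w x =
      ((addOrderOf u * p ^ a * Nat.card D : ℕ) : ℂ) * v) →
    ∃ k : X → D, (∀ d x, k (act d x) = d * k x) ∧
      ∃ v, IntAt M v ∧ Ph f k w σ = ((p ^ c : ℕ) : ℂ) * v

/-- **ABS** (short to medium). The abstract theorem. Proof: let `σ = α ^ m`, `k` from ADP, `r = ∑_{k x = 1} w x` (`IntAt`), and write `≡` for congruence
modulo `p ^ c` times `IntAt` elements. All products of `α`, `β`, `γ` commute with the action and preserve `w`, so HOM (3) applies: `Ph` is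
additive, `Ph 1 ≡ 0`, `Ph (τ ^ n) ≡ n Ph τ`. The braid relations give `2 Ph α + Ph β ≡ 2 Ph β + Ph α`, so
`Ph α ≡ Ph β ≡ Ph γ`. Hence `(f z).val r = Ph (act z) ≡ m * 4 * (Ph α + Ph β + Ph γ) ≡ 12 m Ph α ≡ 12 Ph (α ^ m) ≡ 0`. As `f z ≠ 1`
`(f z).val = p ^ b e` with `b < c`, `p ∤ e` (it is a natural number `≠ 0` and `< p ^ c`), so `e r = p ^ (c - b) v` is `InM`, and `r` is `InM`
(`InM.or`, `InM.natCast`). `∑ w = |D| r` by HOM (1). Uses: HOM, ADP. -/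
def ABS_stmt : Prop :=
  ∀ (p c m A : ℕ) (M : Ideal (integralClosure ℤ ℂ)), Setup p M → ∀ (D X : Type) [Group D] [Finite D]
    [Finite X] (act : D →* Equiv.Perm X) (w : X → ℂ) (f : D →* Multiplicative (ZMod (p ^ c)))
    (z : D) (α β γ : Equiv.Perm X), (∀ d x, act d x = x → d = 1) → (∀ x, IntAt M (w x)) →
    (∀ d x, w (act d x) = w x) → (∀ x, w (α x) = w x) → (∀ x, w (β x) = w x) →
    (∀ x, w (γ x) = w x) → (∀ d, α * act d = act d * α) → (∀ d, β * act d = act d * β) →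
    (∀ d, γ * act d = act d * γ) → α * β * α = β * α * β → γ * β * γ = β * γ * β →
    ((α * β * γ) ^ 4) ^ m = act z → (α ^ m) ^ p ^ A = 1 → f z ≠ 1 →
    (∀ (a : ℕ) (u : ZMod (p ^ c)), ∃ v, IntAt M v ∧ ∑ᶠ x ∈ Xq p act f (α ^ m) a u, w x =
      ((addOrderOf u * p ^ a * Nat.card D : ℕ) : ℂ) * v) →
    ∃ r, InM M r ∧ ∑ᶠ x, w x = (Nat.card D : ℂ) * r

/-! ## D. The twists -/

/-- **BRD** (medium). The action and the twists. Proof: `act d x = cjT d x` (`XX` is stable: CLB; `cjT` is an action). The twists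
`α (t, y, C) = (t, y t, C)`, `β (t, y, C) = (t y⁻¹, y, C)`, `γ (t, y, C) = (t, g t y, C)` are bijections of `Tr G` (inverses
`(t, y t⁻¹, C)`, `(t y, y, C)`, `(t, t⁻¹ g⁻¹ y, C)`) and map `XX` to `XX` in both directions: the new entries are products of
`t, y, g` and their inverses, so they are in `nrm C`, and a `d ∈ D ⊓ nrm C` commutes with the new `t, y` iff it commutes with the old ones
(it commutes with `g`). They commute with `cjT d`, `d ∈ D` (`d g = g d`). `ζ`: `t (y t) t⁻¹ (y t)⁻¹ = t y t⁻¹ y⁻¹`,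
`(t y⁻¹) y (t y⁻¹)⁻¹ y⁻¹ = t y t⁻¹ y⁻¹`, `t (g t y) t⁻¹ (g t y)⁻¹ g = (t g) (t y t⁻¹ y⁻¹ g) (t g)⁻¹`. The relations are
identities of the entries (`group`; `(α β γ)^4` is the 4-fold composition of `(t, y) ↦ (t y⁻¹ t⁻¹ g⁻¹, g t y t y⁻¹ t⁻¹ g⁻¹)`, it maps
`(t, y)` to `(g t g⁻¹, g y g⁻¹)`, and `chainMap (MulAut.conj g) C = C` as `g ∈ nrm C`, SN of DC). Uses: CLB, SN of DC. -/
def BRD_stmt : Prop :=
  ∀ (G : Type) [Group G] [Finite G] (p : ℕ) (g : G) (D : Subgroup G), (∀ d ∈ D, d * g = g * d) →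
    ∃ (act : D →* Equiv.Perm (XX p g D)) (α β γ : Equiv.Perm (XX p g D)),
      (∀ d x, ((act d x : XX p g D) : Tr G) = cjT (d : G) x) ∧
      (∀ x, ((α x : XX p g D) : Tr G) = mR (x : Tr G) (x : Tr G).1) ∧
      (∀ d, α * act d = act d * α) ∧ (∀ d, β * act d = act d * β) ∧
      (∀ d, γ * act d = act d * γ) ∧
      α * β * α = β * α * β ∧ γ * β * γ = β * γ * β ∧
      (∀ x, ((((α * β * γ) ^ 4) x : XX p g D) : Tr G) = cjT g x) ∧
      ∀ ζ : G → ℂ, (∀ u v, ζ (v * u * v⁻¹) = ζ u) →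
        (∀ d x, wt g ζ (act d x : XX p g D) = wt g ζ x) ∧
        (∀ x, wt g ζ (α x : XX p g D) = wt g ζ x) ∧ (∀ x, wt g ζ (β x : XX p g D) = wt g ζ x) ∧
        ∀ x, wt g ζ (γ x : XX p g D) = wt g ζ x

/-- **APP** (medium). The application. Proof: `act`, `α`, `β`, `γ` from BRD, `X = XX p g D` (as a type), `w x = wt g ζ x`
(`IntAt`, `ClF`). The action is free: `cjT d x = x` means that `d` commutes with `t`, `y` and normalises `C` (SN of DC), `Fr`.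
`((α β γ) ^ 4) ^ m` maps `x` to `cjT (g ^ m) x = act ⟨g ^ m, hz⟩ x`. `α ^ n` maps `(t, y, C)` to `(t, y t ^ n, C)`, so
`(α ^ m) ^ p ^ A = 1` for `p ^ A` a multiple of all orders of the `p`-elements `t ^ m` (finitely many). `(α ^ m) ^ i x = act κ x` iff
`RL m D x i κ` (for `κ ∈ D`; SN of DC), so `Xq p act f (α ^ m) a u` is the set of the `x` with `∃ κ : D, QK p m a D x κ ∧ f κ = ofAdd u`
(in `RL m D x i κ'` the element `κ'` is in `D`), and the hypothesis of ABS is HDV. ABS gives `∑_{x ∈ XX} wt x = |D| r`, and TXS.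
Uses: BRD, HDV, ABS, TXS, SN of DC. -/
def APP_stmt : Prop :=
  ∀ (p m c : ℕ) (M : Ideal (integralClosure ℤ ℂ)), Setup p M → ∀ (G : Type) [Group G] [Finite G]
    (g : G) (D : Subgroup G), IsPGroup p D → (∀ d ∈ D, d * g = g * d) → (∀ t : G, PEl p (t ^ m)) →
    ∀ (hz : g ^ m ∈ D) (f : D →* Multiplicative (ZMod (p ^ c))), f ⟨g ^ m, hz⟩ ≠ 1 →
    ∀ ζ : G → ℂ, ClF M ζ → ∃ r, InM M r ∧
    ∑ᶠ x : G × G, ζ (x.1 * x.2 * x.1⁻¹ * x.2⁻¹ * g)⁻¹ *
      (W p (Subgroup.closure {x.1, x.2, g}) : ℂ) = (Nat.card D : ℂ) * r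

/-! ## E. Arithmetic -/

/-- **TOR** (short). The torus sum. Proof: `n = 0`: `Fin 0 → G` has one element, `qq` of it is `1`, the product is `1` and the range is empty. The
inner sum over `(t, y)` for `s = h g h⁻¹` equals the one for `g` (conjugate `t`, `y` by `h`; `ζ` is a class function, WCJ (1) for `W`,
`cj h (closure A)` is the closure of the image), `ind g s = 1` for the `|G| / |C_G(g)|` conjugates `s` of `g` and `0` otherwise.
Uses: WCJ. -/
def TOR_stmt : Prop :=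
  ∀ (G : Type) [Group G] [Finite G] (p : ℕ) [Fact p.Prime] (g : G) (ζ : G → ℂ),
    (∀ u v, ζ (v * u * v⁻¹) = ζ u) →
    (Nat.card (Subgroup.centralizer ({g} : Set G)) : ℂ) * To p (ind g) ζ 0 =
      (Nat.card G : ℂ) * ∑ᶠ x : G × G, ζ (x.1 * x.2 * x.1⁻¹ * x.2⁻¹ * g)⁻¹ *
        (W p (Subgroup.closure {x.1, x.2, g}) : ℂ)

/-- **CHR** (short to medium). A homomorphism which separates `z` from `1`. Proof: the image of `z` in `Abelianization D` is not `1`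
(`Subgroup.map_subtype_commutator` or directly: `⁅D, D⁆` is the image of the commutator subgroup of the group `D`). By
`CommGroup.exists_apply_ne_one_of_hasEnoughRootsOfUnity` (with `ℂ`) there is a homomorphism `φ` to `ℂˣ` which is not `1` there; its values
are `p ^ c`-th roots of unity, `p ^ c = |D|`; `rootsOfUnity (p ^ c) ℂ` is cyclic of order `p ^ c`, so isomorphic to
`Multiplicative (ZMod (p ^ c))` (`zmodCyclicMulEquiv`, `Complex.card_rootsOfUnity`). -/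
def CHR_stmt : Prop :=
  ∀ (G : Type) [Group G] [Finite G] (p : ℕ) [Fact p.Prime] (D : Subgroup G), IsPGroup p D →
    ∀ (z : G) (hz : z ∈ D), z ∉ ⁅D, D⁆ →
    ∃ (c : ℕ) (f : D →* Multiplicative (ZMod (p ^ c))), f ⟨z, hz⟩ ≠ 1

/-- **UPV** (short). The core theorem. Proof: `ζ = zeta M χ` satisfies `ClF M` (ZT0). `c`, `f` from CHR for `g ^ m`, `r` from APP,
`T = |D| r` the sum. By TOR `|C_G(g)| To = |G| T`, and by FT2 `To = |G| aB omega + |G|_p w`, `InM M w`. Let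
`|C_G(g)| = |D| n` with `p ∤ n` and `|G| = |G|_p k`, `p ∤ k`: `|G| |D| r = |D| n (|G| aB omega + |G|_p w)`, so
`k n aB omega = k r - n w` is `InM`. As in UP2 (`Pool/Agent/helper25/OB/UP2.lean`) `omega` is `IntAt` and not `InM`, so the integer
`k n aB` is `InM`, hence divisible by `p`, and `p ∣ aB`. Uses: APP, CHR, TOR, FT2, ZT0 of OB, C3 of DI, TI of DC. -/
def UPV_stmt : Prop :=
  ∀ (p m : ℕ) (M : Ideal (integralClosure ℤ ℂ)), Setup p M → ∀ (G : Type) [Group G] [Finite G],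
    IsOp p (⊤ : Subgroup G) ⊥ → ∀ χ ∈ Irr G, ∀ (g : G) (D : Subgroup G),
    D ≤ Subgroup.centralizer {g} → IsPGroup p D →
    Nat.card D = pp p (Subgroup.centralizer ({g} : Set G)) → ¬ InM M (omega χ g) →
    (∀ t : G, PEl p (t ^ m)) → g ^ m ∈ D → g ^ m ∉ ⁅D, D⁆ → (p : ℤ) ∣ aB p M χ

/-- **FNV** (short). In terms of a defect group. Proof: let `g = z x` and `m = |G| / |G|_p`, so `p ∤ m`, `x ^ m = 1` (the order of `x` divides
`|G|` and is prime to `p`), `t ^ m` is a `p`-element for all `t`, `g ^ m = z ^ m`. `z ^ m ∉ ⁅D, D⁆` since `z` is a power of `z ^ m` (`z` is a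
`p`-element). `omega χ g` is not `InM` by DG6. `D ≤ C_G(g) ≤ C_G(x)`: an element which commutes with `z x` commutes with `z` and
`x`, which are powers of `z x`; so the `p`-part of `|C_G(g)|` is `|D|`. UPV. Uses: UPV, DG6 of OB. -/
def FNV_stmt : Prop :=
  ∀ (p : ℕ) (M : Ideal (integralClosure ℤ ℂ)), Setup p M → ∀ (G : Type) [Group G] [Finite G],
    IsOp p (⊤ : Subgroup G) ⊥ → ∀ χ ∈ Irr G, ∀ (D : Subgroup G) (x : G), DefAt p M χ D x →
    ∀ z ∈ D, (∀ d ∈ D, z * d = d * z) → z ∉ ⁅D, D⁆ → (p : ℤ) ∣ aB p M χ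

end Pool.Agent.TZ
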