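import Mathlib
import Pool.Agent.helper12.TZ.Spec
import Pool.Agent.helper81.DI.SpecD

/-!
# Project tz (MP_baa4d7_al), part I: the invariant form

TARGET (IFN). `p` any prime, `O_p(G) = 1`, `B` a block with a defect group `D`, `Z(D)` not contained in `[D, D]`, `E` an
extension of `G` with quotient `A`, `W ≤ A` with a cyclic normal subgroup `C`, `W / C` a `p`-group, such that no prime divisor
`l` of `|C|` is congruent to `0`, `1` or `-1` modulo `p`. Then for all `U ≤ W` the sum over `d` and over the `V ≤ A` with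
`V ⊓ W = U` of the alternating sums of Dade's conjecture is divisible by `p`.

IDEA. For `A` cyclic of order prime to `p` and a stable block the ordinary sums of the blocks of `E` over `B` satisfy
`|A| ∑_b a(b) = ∑_U |U|² S(U)`, `S(U) = ∑_d altSum d U` (relation of project di). By the theorem for `E` (with the same `g`,
`D`) all `a(b)` are divisible by `p`. `∑_U |U|² S(U)` is the sum of `F(⟨x, y⟩)` over all `x, y ∈ A`, `F(V) = ∑_(U ≥ V) S(U)`,
and by induction `p ∣ F(V)` for `V ≠ A`; the number of the pairs with `⟨x, y⟩ = A` is prime to `p`. The general case follows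
because a `p`-group acts on the set of the classes fixed by `C`.

Rules: see `Spec.lean`; import `Pool.Agent.helper12.TZ.SpecI`; rows `DI` and `DC` (namespaces `Pool.Agent.DI`,
`Pool.Agent.helper58.DC`) may be used as hypotheses.
-/

set_option autoImplicit false

namespace Pool.Agent.TZ

open Pool.Agent.helper58.DC Pool.Agent.DI Pool.Agent.GR Pool.Agent.OB

/-- **IQA** (short). D7 of DI as an equation. Proof: `Pool/Agent/helper81/DI/D7.lean` with `R` the set of the elements of the `R` of C15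
with `Cov M G' τ b`; instead of `Ord` keep the numbers (the part before the last step of the `calc`). Uses: B2, C1, C9, C15, D1 of DI. -/
def IQA_stmt : Prop :=
  ∀ (Γ : Type) [Group Γ] [Finite Γ] (p : ℕ) [Fact p.Prime] (M : Ideal (integralClosure ℤ ℂ)),
    M.IsMaximal → (p : integralClosure ℤ ℂ) ∈ M → ∀ (G' : Subgroup Γ) (τ : Γ → ℂ),
    ∃ R : Finset (Γ → ℂ), (∀ b ∈ R, b ∈ Irr Γ ∧ Cov M G' τ b) ∧ ∀ d : ℤ,
      ∑ᶠ C ∈ {C : Finset (Subgroup Γ) | IsRadical p C},
        (-1) ^ (C.card + 1) * gfun p M G' τ d (nrm C) =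
      ∑ b ∈ R, (Nat.card Γ : ℤ) * altSum (trivE Γ) p M b d ⊤

/-- **IOP** (short). `O_p(E) = 1`. Proof: a normal `p`-subgroup `Q` of `E` is contained in `X.inc.range` (its image in `A` is a `p`-group, so
trivial), its preimage in `G` is a normal `p`-subgroup of `G`. -/
def IOP_stmt : Prop :=
  ∀ (G E A : Type) [Group G] [Group E] [Group A] [Finite G] [Finite E] (X : Extension G E A)
    (p : ℕ) [Fact p.Prime], ¬ p ∣ Nat.card A → IsOp p (⊤ : Subgroup G) ⊥ → IsOp p (⊤ : Subgroup E) ⊥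

/-- **IQR** (short to medium). The relation. Proof: adapt `Pool/Agent/helper31/DI/D11.lean`: the first step (`D11_top`) becomes
`cSum p ⊤ ⊥ ⊤ g = ∑_{b ∈ R} |E| altSum (trivE E) p M b d ⊤` (IQA, A7, A8, IOP), the hypothesis of A12 is vacuous (a `p`-subgroup `Q` of `E`
with `Q ⊓ X.inc.range = ⊥` embeds in `A`, so `Q = ⊥`), and `padicValNat p (Nat.card U) = 0` for `U ≤ A`. Divide by `|G|`
(`|E| = |G| |A|`). Uses: IQA, IOP, A7, A8, A12, A14, B0, C1, C10, C15, C16, IM, D0, D4, D8 of DI. -/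
def IQR_stmt : Prop :=
  ∀ (G E A : Type) [Group G] [Group E] [Group A] [Finite G] [Finite E] (X : Extension G E A)
    (p : ℕ) [Fact p.Prime] (M : Ideal (integralClosure ℤ ℂ)), M.IsMaximal →
    (p : integralClosure ℤ ℂ) ∈ M → IsCyclic A → ¬ p ∣ Nat.card A → IsOp p (⊤ : Subgroup G) ⊥ →
    ∀ χ ∈ Irr G, Stable X M χ →
    ∃ R : Finset (E → ℂ), (∀ b ∈ R, b ∈ Irr E ∧
        Cov M X.inc.range (omega (ext0 X.inc χ)) b) ∧ ∀ d : ℤ,
      (Nat.card A : ℤ) * ∑ b ∈ R, altSum (trivE E) p M b d ⊤ =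
        ∑ᶠ U : Subgroup A, (Nat.card U : ℤ) ^ 2 * altSum X p M χ d U

/-- **IOM** (short to medium). Proof: the set of the `k ∈ G` with `X.inc k` conjugate to `X.inc g` in `E` is the union of the classes of the
`X.act e g`, `e ∈ E`; all these classes have the same number of elements, and on each of them `omega χ (X.act e g)` is congruent to
`omega χ g` (`Stable`: `omega (funMap (X.act e⁻¹) χ) g = omega χ (X.act e g)`). So `omega (ext0 X.inc χ) (X.inc g)` is
congruent to `n * omega χ g`, `n` the number of the classes (compare C16 of DI and its proof). `E` acts transitively on them and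
`X.inc.range` trivially, so `n` divides `|A|`. Uses: IM, OM, IF of DC if useful. -/
def IOM_stmt : Prop :=
  ∀ (p : ℕ) (M : Ideal (integralClosure ℤ ℂ)), Setup p M → ∀ (G E A : Type) [Group G] [Group E]
    [Group A] [Finite G] [Finite E] (X : Extension G E A), ∀ χ ∈ Irr G, Stable X M χ → ∀ g : G,
    ∃ n : ℕ, n ∣ Nat.card A ∧ InM M (omega (ext0 X.inc χ) (X.inc g) - n * omega χ g)

/-- **ICV** (medium). The blocks of `E` over `B`. Proof: `g = z x`, `g' = X.inc g`, `D' = D.map X.inc`, `m = |E| / |E|_p`. UPV for `E`, `b`,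
`g'`, `D'`, `m`: `O_p(E) = 1` by IOP. `omega b g'` is congruent to `omega (ext0 X.inc χ) g'` (`Cov`, `Mcong`), so to `n * omega χ g`
(IOM), `p ∤ n`, and `omega χ g` is not `InM` (DG6): so `omega b g'` is not `InM` (`InM.or`, `InM.natCast`). `D' ≤ C_E(g')`, a
`p`-group with `|D|` elements; `C_E(g') ⊓ X.inc.range` is the image of `C_G(g)` and has index dividing `|A|` in `C_E(g')`, so
`|C_E(g')|_p = |C_G(g)|_p = |D|` (the latter as in FNV: `D ≤ C_G(z x) ≤ C_G(x)`). `|E| / |E|_p` is a multiple of `|G| / |G|_p`, so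
`x ^ m = 1`, `g' ^ m = X.inc (z ^ m) ∈ D'`; it is not in `⁅D', D'⁆ = (⁅D, D⁆).map X.inc` (`Subgroup.map_commutator`) because `z` is a
power of `z ^ m`. Uses: UPV, IOP, IOM, DG6 of OB. -/
def ICV_stmt : Prop :=
  ∀ (p : ℕ) (M : Ideal (integralClosure ℤ ℂ)), Setup p M → ∀ (G E A : Type) [Group G] [Group E]
    [Group A] [Finite G] [Finite E] (X : Extension G E A), ¬ p ∣ Nat.card A →
    IsOp p (⊤ : Subgroup G) ⊥ → ∀ χ ∈ Irr G, Stable X M χ → ∀ (D : Subgroup G) (x : G),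
    DefAt p M χ D x → ∀ z ∈ D, (∀ d ∈ D, z * d = d * z) → z ∉ ⁅D, D⁆ →
    ∀ b ∈ Irr E, Cov M X.inc.range (omega (ext0 X.inc χ)) b → (p : ℤ) ∣ aB p M b

/-- **IRL** (short). Proof: sum the relation IQR over `d` (finite supports, FN of DC); `∑_d altSum (trivE E) p M b d ⊤ = aB p M b` (TOA of OB for
`trivE E`, whose quotient `Unit` has only the subgroup `⊤`), divisible by `p` by ICV. Uses: IQR, ICV, TOA of OB, FN of DC. -/
def IRL_stmt : Prop :=
  ∀ (p : ℕ) (M : Ideal (integralClosure ℤ ℂ)), Setup p M → ∀ (G E A : Type) [Group G] [Group E]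
    [Group A] [Finite G] [Finite E] (X : Extension G E A), IsCyclic A → ¬ p ∣ Nat.card A →
    IsOp p (⊤ : Subgroup G) ⊥ → ∀ χ ∈ Irr G, Stable X M χ → ∀ (D : Subgroup G) (x : G),
    DefAt p M χ D x → ∀ z ∈ D, (∀ d ∈ D, z * d = d * z) → z ∉ ⁅D, D⁆ →
    (p : ℤ) ∣ ∑ᶠ U : Subgroup A, (Nat.card U : ℤ) ^ 2 * ∑ᶠ d : ℤ, altSum X p M χ d U

/-- **IJN** (medium). The number of the pairs of generators of a cyclic group. Proof: transfer to `ZMod n`, or: strong induction on `|A|`. If `|A|` is a power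
of a prime `l`, `|A| = l ^ k`, `k ≥ 1`, then `⟨x, y⟩ ≠ ⊤` iff `x` and `y` are in the subgroup of index `l`, so the number is
`l ^ (2 k) - l ^ (2 k - 2) = l ^ (2 k - 2) (l ^ 2 - 1)`. If `|A| = a b` with `a, b > 1` prime to each other, `A` is the product of
cyclic groups of orders `a` and `b`, `⟨x, y⟩ = ⊤` iff both projections generate, and the number is the product of the numbers
(`Nat.recOnPosPrimePosCoprime`). If `|A| = 1` it is `1`. -/
def IJN_stmt : Prop :=
  ∀ (p : ℕ) [Fact p.Prime] (A : Type) [Group A] [Finite A], IsCyclic A →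
    (∀ l : ℕ, l.Prime → l ∣ Nat.card A → ¬ p ∣ l ∧ ¬ p ∣ l ^ 2 - 1) →
    ¬ p ∣ Nat.card {x : A × A // Subgroup.closure {x.1, x.2} = (⊤ : Subgroup A)}

/-- **ICM** (short). Combinatorics. Proof: `|U|² = #{(x, y) | x, y ∈ U}`, so `∑_U |U|² S U = ∑_{(x, y)} ∑_{U ≥ ⟨x, y⟩} S U`. For
`⟨x, y⟩ ≠ ⊤` the inner sum is divisible by `p`, for `⟨x, y⟩ = ⊤` it is `S ⊤`. So `p` divides `N * S ⊤`. -/
def ICM_stmt : Prop :=
  ∀ (p : ℕ) [Fact p.Prime] (A : Type) [Group A] [Finite A] (S : Subgroup A → ℤ),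
    (p : ℤ) ∣ ∑ᶠ U : Subgroup A, (Nat.card U : ℤ) ^ 2 * S U →
    (∀ U : Subgroup A, U ≠ ⊤ → (p : ℤ) ∣ ∑ᶠ V : {V : Subgroup A // U ≤ V}, S V.1) →
    ¬ p ∣ Nat.card {x : A × A // Subgroup.closure {x.1, x.2} = (⊤ : Subgroup A)} → (p : ℤ) ∣ S ⊤

/-- **ICY** (short to medium). `A` cyclic of order prime to `p`. Proof: strong induction on `|A|`. If the block is not stable all
`altSum X p M χ d ⊤` are `0` (ST of DC). Otherwise ICM with `S U = ∑_d altSum X p M χ d U`: the first hypothesis is IRL, the third IJN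
(`¬ p ∣ l` shows `¬ p ∣ |A|`), and for `U ≠ ⊤` the sum of `S V`, `V ≥ U`, is (exchange of finite sums, FN of DC)
`∑_d altSum (resE X U) p M χ d ⊤` (RE of DC), divisible by `p` by induction (`U` is cyclic, `|U| < |A|`). Uses: IRL, IJN, ICM, RE, ST,
FN of DC. -/
def ICY_stmt : Prop :=
  ∀ (p : ℕ) (M : Ideal (integralClosure ℤ ℂ)), Setup p M → ∀ (G E A : Type) [Group G] [Group E]
    [Group A] [Finite G] [Finite E] (X : Extension G E A), IsCyclic A →
    (∀ l : ℕ, l.Prime → l ∣ Nat.card A → ¬ p ∣ l ∧ ¬ p ∣ l ^ 2 - 1) →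
    IsOp p (⊤ : Subgroup G) ⊥ → ∀ χ ∈ Irr G, ∀ (D : Subgroup G) (x : G),
    DefAt p M χ D x → ∀ z ∈ D, (∀ d ∈ D, z * d = d * z) → z ∉ ⁅D, D⁆ →
    (p : ℤ) ∣ ∑ᶠ d : ℤ, altSum X p M χ d ⊤

/-- **IPG** (short to medium). Fixed points modulo `p`. Proof: as PGS and PGF (`Pool/Agent/helper11/OB/PGS.lean`,
`Pool/Agent/helper48/OB/PGF.lean`): `S`, `cls` from CL0; `altSum X p M χ d U = S.num d U` (CL1),
`S.num d ⊤ = S.fix d ⊤`, `∑_{V ≥ C} S.num d V = S.fix d C` (MB). The group `A` acts on the set `Z'` of the `z` fixed by `C` (`C` is normal),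
`C` acts trivially, so the orbits have `p`-power length (`A ⧸ C` acts), `len` is constant on them, and the elements fixed by `A` are the
orbits of length `1`. Uses: CL0, CL1, MB of DC. -/
def IPG_stmt : Prop :=
  ∀ (p : ℕ) [Fact p.Prime] (M : Ideal (integralClosure ℤ ℂ)) (G E A : Type) [Group G] [Group E]
    [Group A] [Finite G] [Finite E] [Finite A] (X : Extension G E A) (C : Subgroup A) [C.Normal],
    (∃ k : ℕ, C.index = p ^ k) → ∀ χ ∈ Irr G, Stable X M χ →
    (p : ℤ) ∣ (∑ᶠ d : ℤ, altSum X p M χ d ⊤) -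
      ∑ᶠ d : ℤ, ∑ᶠ V : {V : Subgroup A // C ≤ V}, altSum X p M χ d V.1

/-- **IHY** (short). Proof: if the block is not stable all summands are `0` (ST of DC). Otherwise by IPG and RE of DC the sum is congruent to
`∑_d altSum (resE X C) p M χ d ⊤`, which is divisible by `p` by ICY. Uses: IPG, ICY, RE, ST of DC. -/
def IHY_stmt : Prop :=
  ∀ (p : ℕ) (M : Ideal (integralClosure ℤ ℂ)), Setup p M → ∀ (G E A : Type) [Group G] [Group E]
    [Group A] [Finite G] [Finite E] (X : Extension G E A) (C : Subgroup A) [C.Normal],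
    IsCyclic C → (∃ k : ℕ, C.index = p ^ k) →
    (∀ l : ℕ, l.Prime → l ∣ Nat.card C → ¬ p ∣ l ∧ ¬ p ∣ l ^ 2 - 1) →
    IsOp p (⊤ : Subgroup G) ⊥ → ∀ χ ∈ Irr G, ∀ (D : Subgroup G) (x : G),
    DefAt p M χ D x → ∀ z ∈ D, (∀ d ∈ D, z * d = d * z) → z ∉ ⁅D, D⁆ →
    (p : ℤ) ∣ ∑ᶠ d : ℤ, altSum X p M χ d ⊤

/-- **IMW** (short). Möbius inversion in `W`. Proof: as `Uni_moeb` in `Pool/Agent/helper22/OB/Uni.lean` (downward induction on `U`: the `V ≥ U` are
grouped by `V ⊓ W`, which is between `U` and `W`), with the hypothesis only for the `U ≤ W`. -/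
def IMW_stmt : Prop :=
  ∀ (p : ℕ) (A : Type) [Group A] [Finite A] (T : Subgroup A → ℤ) (W : Subgroup A),
    (∀ U ≤ W, (p : ℤ) ∣ ∑ᶠ V : {V : Subgroup A // U ≤ V}, T V.1) →
    ∀ U ≤ W, (p : ℤ) ∣ ∑ᶠ V : {V : Subgroup A // V ⊓ W = U}, T V.1

/-- **IFN** (short to medium). The theorem. Proof: IMW with `T V = ∑_d altSum X p M χ d V` (exchange the finite sums: FN of DC, and
`Uni_swap` in `Pool/Agent/helper22/OB/Uni.lean`). For `U ≤ W` the sum of `T V`, `V ≥ U`, is `∑_d altSum (resE X U) p M χ d ⊤` (RE of DC); it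
is divisible by `p` by IHY for `resE X U` and the subgroup `C' = C.subgroupOf U` of `U`: it is normal (`C` is normal in `W`), cyclic, its
order divides `|C|`, and `C'.index = C.relIndex U` divides `C.relIndex W` (`relIndex_inf_le`; or: `U / (U ⊓ C)` embeds in `W / C`,
`Subgroup.relIndex_dvd_of_le_left` does not apply directly). Uses: IHY, IMW, RE, FN of DC. -/
def IFN_stmt : Prop :=
  ∀ (p : ℕ) (M : Ideal (integralClosure ℤ ℂ)), Setup p M → ∀ (G E A : Type) [Group G] [Group E]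
    [Group A] [Finite G] [Finite E] (X : Extension G E A) (W C : Subgroup A), C ≤ W →
    (∀ w ∈ W, ∀ c ∈ C, w * c * w⁻¹ ∈ C) → IsCyclic C → (∃ k : ℕ, C.relIndex W = p ^ k) →
    (∀ l : ℕ, l.Prime → l ∣ Nat.card C → ¬ p ∣ l ∧ ¬ p ∣ l ^ 2 - 1) →
    IsOp p (⊤ : Subgroup G) ⊥ → ∀ χ ∈ Irr G, ∀ (D : Subgroup G) (x : G),
    DefAt p M χ D x → ∀ z ∈ D, (∀ d ∈ D, z * d = d * z) → z ∉ ⁅D, D⁆ →
    ∀ U ≤ W, (p : ℤ) ∣ ∑ᶠ d : ℤ, ∑ᶠ V : {V : Subgroup A // V ⊓ W = U}, altSum X p M χ d V.1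

end Pool.Agent.TZ
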