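import Pool.Agent.helper11.TZ.PAR
import Pool.Agent.helper18.TZ.HDV
import Pool.Agent.helper19.TZ.CLA
import Pool.Agent.helper19.TZ.CLC
import Pool.Agent.helper19.TZ.ORK
import Pool.Agent.helper19.TZ.QKU
import Pool.Agent.helper20.TZ.TXS
import Pool.Agent.helper20.TZ.UAB
import Pool.Agent.helper23.TZ.IFN
import Pool.Agent.helper23.TZ.IHY
import Pool.Agent.helper25.TZ.IOP
import Pool.Agent.helper3.TZ.APP
import Pool.Agent.helper5.TZ.EQV
import Pool.Agent.helper53.TZ.FNV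
import Pool.Agent.helper53.TZ.HDA
import Pool.Agent.helper56.TZ.FRE
import Pool.Agent.helper56.TZ.ICV
import Pool.Agent.helper56.TZ.IQA
import Pool.Agent.helper56.TZ.IRL
import Pool.Agent.helper56.TZ.TOG
import Pool.Agent.helper56.TZ.TRI
import Pool.Agent.helper58.TZ.CHF
import Pool.Agent.helper58.TZ.CLB
import Pool.Agent.helper58.TZ.UPV
import Pool.Agent.helper59.TZ.ABS
import Pool.Agent.helper59.TZ.BRD
import Pool.Agent.helper59.TZ.HOM
import Pool.Agent.helper59.TZ.INV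
import Pool.Agent.helper63.TZ.ADP
import Pool.Agent.helper63.TZ.CLN
import Pool.Agent.helper63.TZ.EXI
import Pool.Agent.helper63.TZ.ICM
import Pool.Agent.helper63.TZ.ICY
import Pool.Agent.helper63.TZ.IJN
import Pool.Agent.helper65.TZ.TOR
import Pool.Agent.helper70.TZ.IQR
import Pool.Agent.helper71.TZ.CEN
import Pool.Agent.helper77.TZ.MON
import Pool.Agent.helper78.TZ.HDB
import Pool.Agent.helper78.TZ.IMW
import Pool.Agent.helper84.TZ.STB
import Pool.Agent.helper9.TZ.RST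
import Pool.Agent.helper90.TZ.IOM
import Pool.Agent.helper93.TZ.CHR
import Pool.Agent.helper96.TZ.IPG
import Pool.Agent.helper22.OB.AllG

/-!
# Project tz (MP_baa4d7_al): assembly
-/

set_option autoImplicit false

namespace Pool.Agent.TZ.All

open Pool.Agent.helper58.DC Pool.Agent.DI Pool.Agent.GR Pool.Agent.OB Pool.Agent.TZ
open Pool.Agent.OB.AllU

theorem zUAB : UAB_stmt := UAB
theorem zCEN : CEN_stmt := CEN zUAB
theorem zSTB : STB_stmt := STB zUAB zCEN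
theorem zRST : RST_stmt := RST
theorem zMON : MON_stmt := MON zCEN
theorem zFRE : FRE_stmt := FRE zSTB
theorem zTRI : TRI_stmt := TRI zFRE zSTB zCEN
theorem zEXI : EXI_stmt := EXI zSTB zUAB
theorem zEQV : EQV_stmt := EQV
theorem zCHF : CHF_stmt := CHF uWCJ
theorem zTXS : TXS_stmt := TXS zCHF
theorem zTOG : TOG_stmt := TOG zCHF zEXI zFRE zRST zMON zSTB uWCJ
theorem zCLA : CLA_stmt := CLA zTRI zSTB
theorem zCLB : CLB_stmt := CLB zEQV Pool.Agent.GR.All.dNM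
theorem zCLC : CLC_stmt := CLC zCLA zCLB
theorem zCLN : CLN_stmt := CLN zTRI zSTB Pool.Agent.GR.All.dSN
theorem zINV : INV_stmt := INV zCLA zCLB zSTB
theorem zORK : ORK_stmt := ORK zSTB
theorem zPAR : PAR_stmt := PAR
theorem zHOM : HOM_stmt := HOM
theorem zADP : ADP_stmt := ADP
theorem zABS : ABS_stmt := ABS zHOM zADP
theorem zBRD : BRD_stmt := BRD zCLB Pool.Agent.GR.All.dSN
theorem zQKU : QKU_stmt := QKU zSTB
theorem zCHR : CHR_stmt := CHR
theorem zTOR : TOR_stmt := TOR uWCJ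
theorem zHDA : HDA_stmt := HDA zPAR zCLC zCLN zINV zORK
theorem zHDB : HDB_stmt := HDB zTOG
theorem zHDV : HDV_stmt := HDV zHDA zHDB zQKU
theorem zAPP : APP_stmt := APP zBRD zHDV zABS zTXS Pool.Agent.GR.All.dSN
theorem zUPV : UPV_stmt :=
  UPV zAPP zCHR zTOR uFT2 uZT0 Pool.Agent.DR.AllDI.iC3 Pool.Agent.GR.All.dTI
theorem zFNV : FNV_stmt := FNV zUPV Pool.Agent.OB.AllG.gDG6

theorem zIOP : IOP_stmt := IOP
theorem zIQA : IQA_stmt :=
  IQA Pool.Agent.DR.AllDI.iB2 Pool.Agent.DR.AllDI.iC1 Pool.Agent.DR.AllDI.iC9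
    Pool.Agent.DR.AllDI.iC15 Pool.Agent.DR.AllDI.iD1
theorem zIQR : IQR_stmt :=
  IQR zIQA zIOP Pool.Agent.DR.AllDI.iA7 Pool.Agent.DR.AllDI.iA8 Pool.Agent.DR.AllDI.iA12
    Pool.Agent.DR.AllDI.iA14 Pool.Agent.DR.AllDI.iB0 Pool.Agent.DR.AllDI.iC1
    Pool.Agent.DR.AllDI.iC10 Pool.Agent.DR.AllDI.iC15 Pool.Agent.DR.AllDI.iC16
    Pool.Agent.DR.AllDI.iIMx Pool.Agent.DR.AllDI.iD0 Pool.Agent.DR.AllDI.iD4
    Pool.Agent.DR.AllDI.iD8
theorem zIJN : IJN_stmt := IJN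
theorem zICM : ICM_stmt := ICM
theorem zIMW : IMW_stmt := IMW
theorem zIOM : IOM_stmt := IOM Pool.Agent.GR.All.dOM
theorem zIPG : IPG_stmt := IPG uCL0 uCL1 uMB
theorem zICV : ICV_stmt := ICV zUPV zIOP zIOM Pool.Agent.OB.AllG.gDG6
theorem zIRL : IRL_stmt := IRL zIQR zICV uTOA Pool.Agent.DR.AllDI.iFNx
theorem zICY : ICY_stmt :=
  ICY zIRL zIJN zICM Pool.Agent.DR.AllDI.iREx Pool.Agent.DR.AllDI.iSTx
    Pool.Agent.DR.AllDI.iFNx
theorem zIHY : IHY_stmt := IHY zIPG zICY Pool.Agent.DR.AllDI.iREx Pool.Agent.DR.AllDI.iSTx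
theorem zIFN : IFN_stmt := IFN zIHY zIMW Pool.Agent.DR.AllDI.iREx Pool.Agent.DR.AllDI.iFNx

end Pool.Agent.TZ.All
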