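import Pool.Agent.helper12.TZ.All
import Pool.Agent.helper12.TZ.DefsV

/-!
# Project tz (MP_baa4d7_al): the final theorem
-/

set_option autoImplicit false

namespace Pool.Agent.TZ

open Pool.Agent.helper58.DC Pool.Agent.DI Pool.Agent.GR Pool.Agent.OB

theorem FinV_main (p : ℕ) (hpr : p.Prime) (M : Ideal (integralClosure ℤ ℂ)) (hM : M.IsMaximal)
    (hp : (p : integralClosure ℤ ℂ) ∈ M) (G : Type) [Group G] [Finite G]
    (hG : IsOp p (⊤ : Subgroup G) ⊥) (χ : G → ℂ) (hχ : χ ∈ Irr G) (D : Subgroup G)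
    (hD : Pool.Agent.MAP.DefectGroup p M χ D) (hz : Pool.Agent.MAP.CentreOut D) (E A : Type)
    [Group E] [Group A] [Finite E] (X : Extension G E A) (W : Subgroup A)
    (hW : Pool.Agent.MAP.Adm p W) (U : Subgroup A) (hU : U ≤ W) :
    (p : ℤ) ∣ ∑ᶠ d : ℤ, ∑ᶠ V : {V : Subgroup A // V ⊓ W = U}, altSum X p M χ d V.1 := by
  have hS : Setup p M := ⟨hpr, hM, hp⟩
  have : Fact p.Prime := ⟨hpr⟩
  obtain ⟨x, hx⟩ := Fin_defAt hS hχ hD
  obtain ⟨z, hzD, hzc, hzn⟩ := hz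
  obtain ⟨C, hCW, hCn, hCc, hCi, hCl⟩ := hW
  exact All.zIFN p M hS G E A X W C hCW hCn hCc hCi hCl hG χ hχ D x hx z hzD hzc hzn U hU

end Pool.Agent.TZ
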